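import Mathlib

set_option autoImplicit false

/-!
# A shortest flip path that flips a common edge

We exhibit two 2-triangulations of the convex octagon and a shortest path between them in the flip
graph whose first step flips an edge common to both of them.
-/

namespace Pool.Agent.Results.MP_1d99bd_co.GeodesicFlipsCommon

/-- A chord (diagonal or side) of the convex polygon with vertices `0, 1, …, n - 1` in this cyclic
order: a pair of vertices, the smaller one written first. -/
def IsChord {n : ℕ} (e : Fin n × Fin n) : Prop := e.1 < e.2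

/-- Two chords cross (in the interior of the polygon) when their endpoints alternate. -/
def Cross {n : ℕ} (e f : Fin n × Fin n) : Prop :=
  (e.1 < f.1 ∧ f.1 < e.2 ∧ e.2 < f.2) ∨ (f.1 < e.1 ∧ e.1 < f.2 ∧ f.2 < e.2)

/-- `S` is a set of chords of the convex `n`-gon, no `k + 1` of which are mutually crossing. -/
def CrossingFree (n k : ℕ) (S : Finset (Fin n × Fin n)) : Prop :=
  (∀ e ∈ S, IsChord e) ∧
    ∀ C : Finset (Fin n × Fin n), C ⊆ S → C.card = k + 1 →
      ¬ ∀ e ∈ C, ∀ f ∈ C, e ≠ f → Cross e f

/-- A `k`-triangulation of the convex `n`-gon: an inclusion-maximal set of chords no `k + 1` of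
which are mutually crossing. -/
def IsKTriangulation (n k : ℕ) (T : Finset (Fin n × Fin n)) : Prop :=
  Maximal (CrossingFree n k) T

/-- The type of `k`-triangulations of the convex `n`-gon. -/
abbrev KTriangulation (n k : ℕ) : Type :=
  {T : Finset (Fin n × Fin n) // IsKTriangulation n k T}

/-- The flip graph: two `k`-triangulations are adjacent when each has exactly one chord that the
other one does not have. -/
def flipGraph (n k : ℕ) : SimpleGraph (KTriangulation n k) where
  Adj T U := (T.1 \ U.1).card = 1 ∧ (U.1 \ T.1).card = 1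
  symm := ⟨fun _ _ h => ⟨h.2, h.1⟩⟩
  loopless := ⟨fun T h => by simp at h⟩

instance {n : ℕ} (e : Fin n × Fin n) : Decidable (IsChord e) := by unfold IsChord; infer_instance

instance {n : ℕ} (e f : Fin n × Fin n) : Decidable (Cross e f) := by unfold Cross; infer_instance

/-- No three mutually crossing chords, in a form suitable for computation. -/
def Free3 (S : Finset (Fin 8 × Fin 8)) : Prop :=
  (∀ e ∈ S, IsChord e) ∧ ∀ e ∈ S, ∀ f ∈ S, ∀ g ∈ S, ¬ (Cross e f ∧ Cross e g ∧ Cross f g)

instance (S : Finset (Fin 8 × Fin 8)) : Decidable (Free3 S) :=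
  inferInstanceAs (Decidable ((∀ e ∈ S, IsChord e) ∧
    ∀ e ∈ S, ∀ f ∈ S, ∀ g ∈ S, ¬ (Cross e f ∧ Cross e g ∧ Cross f g)))

/-- Every missing chord creates three mutually crossing chords. -/
def Sat3 (S : Finset (Fin 8 × Fin 8)) : Prop :=
  ∀ e : Fin 8 × Fin 8, IsChord e → e ∉ S → ∃ f ∈ S, Cross e f ∧ ∃ g ∈ S, Cross e g ∧ Cross f g

instance (S : Finset (Fin 8 × Fin 8)) : Decidable (Sat3 S) := by unfold Sat3; infer_instance

theorem cross_irrefl {n : ℕ} (e : Fin n × Fin n) : ¬ Cross e e := by
  rintro (⟨h, -, -⟩ | ⟨h, -, -⟩) <;> exact lt_irrefl _ h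

theorem cross_ne {n : ℕ} {e f : Fin n × Fin n} (h : Cross e f) : e ≠ f := by
  rintro rfl; exact cross_irrefl _ h

theorem cross_symm {n : ℕ} {e f : Fin n × Fin n} (h : Cross e f) : Cross f e := h.symm

/-- Three mutually crossing chords violate crossing-freeness for `k = 2`. -/
theorem not_crossingFree_of_triple {n : ℕ} {U : Finset (Fin n × Fin n)} {e f g : Fin n × Fin n}
    (he : e ∈ U) (hf : f ∈ U) (hg : g ∈ U) (hef : Cross e f) (heg : Cross e g)
    (hfg : Cross f g) : ¬ CrossingFree n 2 U := by
  intro h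
  refine h.2 {e, f, g} ?_ ?_ ?_
  · intro x hx
    simp only [Finset.mem_insert, Finset.mem_singleton] at hx
    rcases hx with rfl | rfl | rfl <;> assumption
  · exact Finset.card_eq_three.2 ⟨e, f, g, cross_ne hef, cross_ne heg, cross_ne hfg, rfl⟩
  · intro x hx y hy hxy
    simp only [Finset.mem_insert, Finset.mem_singleton] at hx hy
    rcases hx with rfl | rfl | rfl <;> rcases hy with rfl | rfl | rfl <;>
      first
      | exact absurd rfl hxy
      | assumption
      | exact cross_symm (by assumption)

theorem crossingFree_of_free3 {S : Finset (Fin 8 × Fin 8)} (h : Free3 S) :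
    CrossingFree 8 2 S := by
  refine ⟨h.1, fun C hC hcard hcr => ?_⟩
  obtain ⟨e, f, g, hef, heg, hfg, rfl⟩ := Finset.card_eq_three.1 hcard
  have he : e ∈ S := hC (by simp)
  have hf : f ∈ S := hC (by simp)
  have hg : g ∈ S := hC (by simp)
  exact h.2 e he f hf g hg ⟨hcr e (by simp) f (by simp) hef,
    hcr e (by simp) g (by simp) heg, hcr f (by simp) g (by simp) hfg⟩

theorem isKTriangulation_of {S : Finset (Fin 8 × Fin 8)} (h : Free3 S) (h' : Sat3 S) :
    IsKTriangulation 8 2 S := by
  refine ⟨crossingFree_of_free3 h, fun U hU hSU => ?_⟩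
  intro e he
  by_contra hne
  obtain ⟨f, hf, hef, g, hg, heg, hfg⟩ := h' e (hU.1 e he) hne
  exact not_crossingFree_of_triple he (hSU hf) (hSU hg) hef heg hfg hU

/-- The chords of the octagon that can not take part in three mutually crossing chords. -/
def base : Finset (Fin 8 × Fin 8) :=
  {(0, 1), (0, 2), (0, 6), (0, 7), (1, 2), (1, 3), (1, 7), (2, 3), (2, 4), (3, 4), (3, 5),
    (4, 5), (4, 6), (5, 6), (5, 7), (6, 7)}

def s0 : Finset (Fin 8 × Fin 8) := base ∪ {(0, 3), (3, 6), (3, 7), (0, 4), (0, 5), (1, 4)}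
def s1 : Finset (Fin 8 × Fin 8) := base ∪ {(0, 3), (3, 6), (1, 6), (0, 4), (0, 5), (1, 4)}
def s2 : Finset (Fin 8 × Fin 8) := base ∪ {(0, 3), (3, 6), (1, 6), (0, 4), (0, 5), (2, 6)}
def s3 : Finset (Fin 8 × Fin 8) := base ∪ {(0, 3), (3, 6), (1, 6), (2, 5), (0, 5), (2, 6)}
def s4 : Finset (Fin 8 × Fin 8) := base ∪ {(0, 3), (3, 6), (1, 6), (2, 5), (3, 7), (2, 6)}

theorem tri0 : IsKTriangulation 8 2 s0 := isKTriangulation_of (by decide +kernel) (by decide +kernel)
theorem tri1 : IsKTriangulation 8 2 s1 := isKTriangulation_of (by decide +kernel) (by decide +kernel)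
theorem tri2 : IsKTriangulation 8 2 s2 := isKTriangulation_of (by decide +kernel) (by decide +kernel)
theorem tri3 : IsKTriangulation 8 2 s3 := isKTriangulation_of (by decide +kernel) (by decide +kernel)
theorem tri4 : IsKTriangulation 8 2 s4 := isKTriangulation_of (by decide +kernel) (by decide +kernel)

theorem adj01 : (flipGraph 8 2).Adj ⟨s0, tri0⟩ ⟨s1, tri1⟩ :=
  ⟨by decide +kernel, by decide +kernel⟩
theorem adj12 : (flipGraph 8 2).Adj ⟨s1, tri1⟩ ⟨s2, tri2⟩ :=
  ⟨by decide +kernel, by decide +kernel⟩
theorem adj23 : (flipGraph 8 2).Adj ⟨s2, tri2⟩ ⟨s3, tri3⟩ :=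
  ⟨by decide +kernel, by decide +kernel⟩
theorem adj34 : (flipGraph 8 2).Adj ⟨s3, tri3⟩ ⟨s4, tri4⟩ :=
  ⟨by decide +kernel, by decide +kernel⟩

/-- A path of length four from `s0` to `s4`. -/
def path : (flipGraph 8 2).Walk ⟨s0, tri0⟩ ⟨s4, tri4⟩ :=
  .cons adj01 (.cons adj12 (.cons adj23 (.cons adj34 .nil)))

/-- Along a walk the number of chords missing from the end point drops by at most one per step. -/
theorem card_sdiff_le {n k : ℕ} {T U : KTriangulation n k} (p : (flipGraph n k).Walk T U) :
    (T.1 \ U.1).card ≤ p.length := by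
  induction p with
  | nil => simp
  | @cons T V U h p ih =>
    have h1 : T.1 \ U.1 ⊆ (T.1 \ V.1) ∪ (V.1 \ U.1) := by
      intro x hx
      simp only [Finset.mem_sdiff, Finset.mem_union] at hx ⊢
      by_cases hxV : x ∈ V.1
      · exact Or.inr ⟨hxV, hx.2⟩
      · exact Or.inl ⟨hx.1, hxV⟩
    calc (T.1 \ U.1).card ≤ ((T.1 \ V.1) ∪ (V.1 \ U.1)).card := Finset.card_le_card h1
      _ ≤ (T.1 \ V.1).card + (V.1 \ U.1).card := Finset.card_union_le _ _
      _ ≤ 1 + p.length := by
        have := h.1
        omega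
      _ = (SimpleGraph.Walk.cons h p).length := by
        rw [SimpleGraph.Walk.length_cons]; omega

/-- Exchanging a chord of `s0 \ s4` for a chord of `s4 \ s0` always creates three mutually
crossing chords. -/
theorem exchange_bad : ∀ a ∈ s0 \ s4, ∀ x ∈ s4 \ s0, ∃ e ∈ insert x (s0.erase a),
    ∃ f ∈ insert x (s0.erase a), Cross e f ∧ ∃ g ∈ insert x (s0.erase a),
      Cross e g ∧ Cross f g := by
  decide +kernel

theorem card04 : (s0 \ s4).card = 3 := by decide +kernel

theorem four_le_length {T U : KTriangulation 8 2} (hT : T.1 = s0) (hU : U.1 = s4)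
    (p : (flipGraph 8 2).Walk T U) : 4 ≤ p.length := by
  by_contra hlt
  have h3 := card_sdiff_le p
  rw [hT, hU, card04] at h3
  cases p with
  | nil => simp at h3
  | @cons _ V _ h q =>
    rw [SimpleGraph.Walk.length_cons] at hlt h3
    have hq : (V.1 \ s4).card ≤ 2 := by
      have := card_sdiff_le q
      rw [hU] at this
      omega
    obtain ⟨a, ha⟩ := Finset.card_eq_one.1 h.1
    obtain ⟨x, hx⟩ := Finset.card_eq_one.1 h.2
    rw [hT] at ha hx
    have haS : a ∈ s0 ∧ a ∉ V.1 := by
      have : a ∈ s0 \ V.1 := by rw [ha]; simp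
      simpa using this
    have hxV : x ∈ V.1 ∧ x ∉ s0 := by
      have : x ∈ V.1 \ s0 := by rw [hx]; simp
      simpa using this
    have hV : V.1 = insert x (s0.erase a) := by
      ext y
      simp only [Finset.mem_insert, Finset.mem_erase]
      constructor
      · intro hy
        by_cases hys : y ∈ s0
        · right
          refine ⟨?_, hys⟩
          rintro rfl
          exact haS.2 hy
        · left
          have : y ∈ V.1 \ s0 := by simp [hy, hys]
          rw [hx] at this
          simpa using this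
      · rintro (rfl | ⟨hya, hys⟩)
        · exact hxV.1
        · by_contra hyV
          have : y ∈ s0 \ V.1 := by simp [hyV, hys]
          rw [ha] at this
          exact hya (by simpa using this)
    have hx4 : x ∈ s4 := by
      by_contra hx4
      have hsub : insert x ((s0 \ s4).erase a) ⊆ V.1 \ s4 := by
        intro y hy
        simp only [Finset.mem_insert, Finset.mem_erase, Finset.mem_sdiff] at hy
        rw [hV]
        simp only [Finset.mem_insert, Finset.mem_erase, Finset.mem_sdiff]
        rcases hy with rfl | ⟨h1, h2, h3⟩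
        · exact ⟨Or.inl rfl, hx4⟩
        · exact ⟨Or.inr ⟨h1, h2⟩, h3⟩
      have hc := Finset.card_le_card hsub
      rw [Finset.card_insert_of_notMem (by
        simp only [Finset.mem_erase, Finset.mem_sdiff, not_and]
        intro _ hxs
        exact absurd hxs hxV.2)] at hc
      have := Finset.pred_card_le_card_erase (s := s0 \ s4) (a := a)
      rw [card04] at this
      omega
    have ha4 : a ∉ s4 := by
      intro ha4
      have hsub : s0 \ s4 ⊆ V.1 \ s4 := by
        intro y hy
        simp only [Finset.mem_sdiff] at hy ⊢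
        refine ⟨?_, hy.2⟩
        rw [hV]
        simp only [Finset.mem_insert, Finset.mem_erase]
        right
        refine ⟨?_, hy.1⟩
        rintro rfl
        exact hy.2 ha4
      have hc := Finset.card_le_card hsub
      rw [card04] at hc
      omega
    obtain ⟨e, he, f, hf, hef, g, hg, heg, hfg⟩ :=
      exchange_bad a (by simp [haS.1, ha4]) x (by simp [hx4, hxV.2])
    rw [← hV] at he hf hg
    exact not_crossingFree_of_triple he hf hg hef heg hfg V.2.1

/-- There are two `2`-triangulations `T`, `T'` of the convex octagon, a chord `e` common to both,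
and a shortest path `p` from `T` to `T'` in the flip graph one of whose steps flips `e`. -/
theorem result : ∃ (T T' : KTriangulation 8 2) (e : Fin 8 × Fin 8)
    (p : (flipGraph 8 2).Walk T T'),
    e ∈ T.1 ∧ e ∈ T'.1 ∧ p.length = (flipGraph 8 2).dist T T' ∧
      ∃ i < p.length, e ∈ (p.getVert i).1 ∧ e ∉ (p.getVert (i + 1)).1 := by
  refine ⟨⟨s0, tri0⟩, ⟨s4, tri4⟩, (3, 7), path, by decide +kernel, by decide +kernel, ?_,
    0, ?_, ?_, ?_⟩
  · apply le_antisymm
    · obtain ⟨q, hq⟩ := (path.reachable).exists_walk_length_eq_dist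
      rw [← hq]
      exact (show path.length = 4 from rfl) ▸ four_le_length rfl rfl q
    · exact SimpleGraph.dist_le path
  · exact Nat.zero_lt_succ _
  · show ((3, 7) : Fin 8 × Fin 8) ∈ s0
    decide +kernel
  · show ((3, 7) : Fin 8 × Fin 8) ∉ s1
    decide +kernel

end Pool.Agent.Results.MP_1d99bd_co.GeodesicFlipsCommon
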